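import Pool.Agent.COS.Stmts
import Mathlib.LinearAlgebra.Matrix.GeneralLinearGroup.Card
import Mathlib.LinearAlgebra.Matrix.Block

/-!
# Squad COS, row CRD: the unitriangular matrices form a subgroup of odd index
-/

namespace Pool.Agent.COS.H21

open Pool.Agent.COS

theorem uni_mul {n : ℕ} {A B : Matrix (Fin n) (Fin n) (ZMod 2)} (hA : IsUni A) (hB : IsUni B) :
    IsUni (A * B) := by
  constructor
  · intro i
    rw [Matrix.mul_apply, Finset.sum_eq_single i]
    · rw [hA.1 i, hB.1 i, one_mul]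
    · intro k _ hk
      rcases lt_or_gt_of_ne hk with h | h
      · rw [hA.2 i k h, zero_mul]
      · rw [hB.2 k i h, mul_zero]
    · intro h
      exact absurd (Finset.mem_univ i) h
  · intro i j hji
    rw [Matrix.mul_apply]
    refine Finset.sum_eq_zero fun k _ => ?_
    rcases lt_or_ge k i with h | h
    · rw [hA.2 i k h, zero_mul]
    · rw [hB.2 k j (lt_of_lt_of_le hji h), mul_zero]

theorem uni_one {n : ℕ} : IsUni (1 : Matrix (Fin n) (Fin n) (ZMod 2)) :=
  ⟨fun i => Matrix.one_apply_eq i, fun _ _ h => Matrix.one_apply_ne (ne_of_gt h)⟩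

theorem uni_pow {n : ℕ} (u : Gr n) (hu : IsUni u.1) : ∀ k : ℕ, IsUni (u ^ k).1
  | 0 => by
    rw [pow_zero]
    exact uni_one
  | k + 1 => by
    rw [pow_succ]
    exact uni_mul (uni_pow u hu k) hu

theorem uni_inv {n : ℕ} (u : Gr n) (hu : IsUni u.1) : IsUni (u⁻¹).1 := by
  have h : u ^ (orderOf u - 1) * u = 1 := by
    rw [← pow_succ, Nat.sub_add_cancel (orderOf_pos u), pow_orderOf_eq_one]
  rw [inv_eq_of_mul_eq_one_left h]
  exact uni_pow u hu _

/-- The group of the upper unitriangular matrices. -/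
def uni (n : ℕ) : Subgroup (Gr n) where
  carrier := {u | IsUni u.1}
  mul_mem' := fun ha hb => uni_mul ha hb
  one_mem' := uni_one
  inv_mem' := fun {u} hu => uni_inv u hu

/-- The entries above the diagonal. -/
def up {n : ℕ} (u : uni n) : (j : Fin n) → Fin (j : ℕ) → ZMod 2 :=
  fun j i => u.1.1 ⟨i, lt_trans i.2 j.2⟩ j

theorem up_bij (n : ℕ) : Function.Bijective (up : uni n → _) := by
  constructor
  · intro u v huv
    apply Subtype.ext
    apply Units.ext
    apply Matrix.ext
    intro i j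
    rcases lt_trichotomy i j with h | h | h
    · have := congrFun (congrFun huv j) ⟨i, h⟩
      exact this
    · subst h
      exact (u.2.1 i).trans (v.2.1 i).symm
    · exact (u.2.2 i j h).trans (v.2.2 i j h).symm
  · intro f
    have hM : ∃ M : Matrix (Fin n) (Fin n) (ZMod 2), IsUni M ∧
        ∀ (j : Fin n) (i : Fin (j : ℕ)), M ⟨i, lt_trans i.2 j.2⟩ j = f j i := by
      refine ⟨Matrix.of fun i j => if h : (i : ℕ) < j then f j ⟨i, h⟩ else
        if i = j then 1 else 0, ⟨fun i => ?_, fun i j hji => ?_⟩, fun j i => ?_⟩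
      · rw [Matrix.of_apply, dif_neg (lt_irrefl _), if_pos rfl]
      · have hn : ¬ (i : ℕ) < j := fun h => absurd (lt_trans h (show (j : ℕ) < i from hji))
          (lt_irrefl _)
        rw [Matrix.of_apply, dif_neg hn, if_neg (ne_of_gt hji)]
      · rw [Matrix.of_apply, dif_pos i.2]
    obtain ⟨M, hU, hf⟩ := hM
    have hdet : M.det = 1 := by
      have ht : M.BlockTriangular id := fun i j hji => hU.2 i j hji
      rw [Matrix.det_of_isUpperTriangular ht]
      exact Finset.prod_eq_one fun i _ => hU.1 i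
    have hun : IsUnit M.det := by
      rw [hdet]
      exact isUnit_one
    refine ⟨⟨Matrix.GeneralLinearGroup.mk'' M hun, hU⟩, ?_⟩
    funext j i
    exact hf j i

theorem card_uni (n : ℕ) : Nat.card (uni n) = ∏ j : Fin n, 2 ^ (j : ℕ) := by
  rw [Nat.card_eq_of_bijective _ (up_bij n), Nat.card_pi]
  refine Finset.prod_congr rfl fun j _ => ?_
  rw [Nat.card_fun, Nat.card_zmod, Nat.card_fin]

theorem index_uni (n : ℕ) : Nat.card (Gr n ⧸ uni n) = ∏ i : Fin n, (2 ^ (n - (i : ℕ)) - 1) := by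
  have h1 := Subgroup.card_eq_card_quotient_mul_card_subgroup (uni n)
  have h2 : Nat.card (Gr n) = (∏ i : Fin n, (2 ^ (n - (i : ℕ)) - 1)) *
      ∏ j : Fin n, 2 ^ (j : ℕ) := by
    have h3 := Matrix.card_GL_field (𝔽 := ZMod 2) n
    rw [show Nat.card (Gr n) = Nat.card (Matrix.GeneralLinearGroup (Fin n) (ZMod 2)) from rfl, h3,
      ← Finset.prod_mul_distrib]
    refine Finset.prod_congr rfl fun i _ => ?_
    rw [ZMod.card, Nat.sub_mul, one_mul, ← pow_add, Nat.sub_add_cancel (le_of_lt i.2)]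
  have hpos : 0 < ∏ j : Fin n, 2 ^ (j : ℕ) := Finset.prod_pos fun j _ => Nat.two_pow_pos _
  rw [h2, card_uni] at h1
  exact (Nat.eq_of_mul_eq_mul_right hpos h1).symm

theorem crd : CrdStmt := by
  intro n
  refine ⟨uni n, fun u => Iff.rfl, ?_⟩
  rw [index_uni]
  refine Finset.prod_induction _ (fun k => Odd k) (fun a b ha hb => ha.mul hb) odd_one
    fun i _ => ?_
  have hi : n - (i : ℕ) ≠ 0 := Nat.sub_ne_zero_of_lt i.2
  exact Nat.Even.sub_odd (Nat.one_le_two_pow) ((Nat.even_pow.mpr ⟨even_two, hi⟩)) odd_one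

end Pool.Agent.COS.H21
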